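import Pool.Agent.Mg.F45e593a.G1872a0

namespace Pool.Agent.Results.MP_45e593_co.ExactInterval

open Pool.Agent.MP_45e593_co

theorem result (e n : ℕ) (he : 2 ≤ e)
    (h1 : (4 ^ e - 1) ^ 2 ≤ n + 2 ^ e ∨ n + 2 * 2 ^ e = (4 ^ e - 1) ^ 2)
    (h2 : n ≤ (4 ^ e - 1) ^ 2 + min e 3) :
    ramsey (SimpleGraph.cycleGraph 4) (completeBipartiteGraph (Fin 1) (Fin n)) = n + 4 ^ e :=
  Baer.exact_interval e n he h1 h2

end Pool.Agent.Results.MP_45e593_co.ExactInterval
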