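import Pool.Agent.Mg.F45e593a.G67c614

namespace Pool.Agent.Results.MP_45e593_co.ExactOddSquare

open Pool.Agent.MP_45e593_co

theorem result (p e t : ℕ) (hp : p.Prime) (h2 : p ≠ 2) (he : 1 ≤ e) (ht : Even t) (h0 : 0 < t)
    (h1 : 2 * t ≤ p ^ (2 * e) + 1 + 2 * p ^ e) :
    ramsey (SimpleGraph.cycleGraph 4)
      (completeBipartiteGraph (Fin 1) (Fin (p ^ (2 * e) * (p ^ (2 * e) - 1) - t))) =
      (p ^ (2 * e)) ^ 2 - t :=
  Baer.exact_odd p e t hp h2 he ht h0 h1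

end Pool.Agent.Results.MP_45e593_co.ExactOddSquare
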