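import Pool.Agent.Mg.F45e593a.Ga2fa03

namespace Pool.Agent.Results.MP_45e593_co.UpperSqPlusThree

open Pool.Agent.MP_45e593_co

theorem result (m : ℕ) (hm : 6 ≤ m)
    (h : Even m ∨ ∃ s : ℕ, Even s ∧ 8 ≤ s ∧ s ^ 2 ≤ m + 1 ∧ m + 6 ≤ (s + 1) ^ 2) :
    ramsey (SimpleGraph.cycleGraph 4) (completeBipartiteGraph (Fin 1) (Fin (m ^ 2 + 3))) ≤
      m ^ 2 + m + 4 :=
  T3.ramsey_upper m hm h

end Pool.Agent.Results.MP_45e593_co.UpperSqPlusThree
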