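import Pool.Agent.Mg.F45e593.G13d8e0

namespace Pool.Agent.Results.MP_45e593_co.UpperSqPlusTwo

open Pool.Agent.MP_45e593_co

theorem result (m : ℕ) (hm : 4 ≤ m) (h11 : m ≠ 11) :
    ramsey (SimpleGraph.cycleGraph 4) (completeBipartiteGraph (Fin 1) (Fin (m ^ 2 + 2))) ≤
      m ^ 2 + m + 3 :=
  ramsey_upper m hm h11

end Pool.Agent.Results.MP_45e593_co.UpperSqPlusTwo
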